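import Mathlib

/-! # Two classes filling half of `ZMod n` in progression order

`n = 2 * m + 1` is odd and `c` colours `ZMod n`. The elements `s + k * u`, `0 ≤ k ≤ m`, form the
first half and the elements `s + (m + 1 + k) * u`, `0 ≤ k < m`, the second half. If the two halves
use disjoint sets of colours, neither half is monochromatic, and the runs of equal colours in the
first (second) half have length at least `a` (at least `b`), where `a + b ≥ 4`, then there is a
rainbow 4-term progression. -/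

namespace Pool.Agent.Results.MP_ae1ffe_co.HalfProgressionRuns

/-- Every change of value in `h 0, ..., h M` is preceded and followed by at least `a` equal
terms. -/
def Runs {κ : Type*} (a M : ℕ) (h : ℕ → κ) : Prop :=
  ∀ k < M, h k ≠ h (k + 1) →
    (∀ j < a, j ≤ k ∧ h (k - j) = h k) ∧ (∀ j < a, k + 1 + j ≤ M ∧ h (k + 1 + j) = h (k + 1))

/-- `x, x + d, x + 2d, x + 3d` have four different colours -/
def Rainbow {n : ℕ} {κ : Type*} (c : ZMod n → κ) (x d : ZMod n) : Prop :=
  c x ≠ c (x + d) ∧ c x ≠ c (x + 2 * d) ∧ c x ≠ c (x + 3 * d) ∧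
    c (x + d) ≠ c (x + 2 * d) ∧ c (x + d) ≠ c (x + 3 * d) ∧ c (x + 2 * d) ≠ c (x + 3 * d)

section seq

variable {κ : Type*} (g : ℕ → κ) (N : ℕ)

/-- a change of colour inside a parity class -/
def Chg (t : ℕ) : Prop := t + 2 ≤ N ∧ g t ≠ g (t + 2)

theorem const_right (z L : ℕ) (h : ∀ t, z < t → t < z + 2 * L → (t - z) % 2 = 0 → ¬ Chg g N t) :
    ∀ i, 1 ≤ i → i ≤ L → z + 2 * i ≤ N → g (z + 2 * i) = g (z + 2) := by
  intro i hi
  induction i, hi using Nat.le_induction with
  | base => intro _ _; rfl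
  | succ i hi ih =>
    intro hL hN
    have h1 := ih (by omega) (by omega)
    have h2 := h (z + 2 * i) (by omega) (by omega) (by omega)
    unfold Chg at h2
    push Not at h2
    have h3 := h2 (by omega)
    rw [← h1, h3]
    rfl

theorem const_left (z L : ℕ) (hz : z ≤ N)
    (h : ∀ t, t < z → z < t + 2 * L → (z - t) % 2 = 0 → ¬ Chg g N t) :
    ∀ i, i < L → 2 * i ≤ z → g (z - 2 * i) = g z := by
  intro i
  induction i with
  | zero => intro _ _; rfl
  | succ i ih =>
    intro hL hN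
    have h1 := ih (by omega) (by omega)
    have h2 := h (z - 2 * (i + 1)) (by omega) (by omega) (by omega)
    unfold Chg at h2
    push Not at h2
    have h3 := h2 (by omega)
    rw [h3, ← h1]
    congr 1
    omega

/-- the sequence version: parity classes have disjoint palettes, minimal distance argument -/
theorem seq_rainbow (hsep : ∀ t t', t ≤ N → t' ≤ N → (t + t') % 2 = 1 → g t ≠ g t')
    (A : ℕ → ℕ) (hA : ∀ z z', (z + z') % 2 = 1 → 4 ≤ A z + A z')
    (hL : ∀ z, Chg g N z → ∀ j < A z, 2 * j ≤ z ∧ g (z - 2 * j) = g z)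
    (hR : ∀ z, Chg g N z → ∀ j < A z, z + 2 + 2 * j ≤ N ∧ g (z + 2 + 2 * j) = g (z + 2))
    (hex : ∃ D z0 z1, z0 + D = z1 ∧ D % 2 = 1 ∧ Chg g N z0 ∧ Chg g N z1) :
    ∃ e d, 0 < d ∧ e + 3 * d ≤ N ∧ g e ≠ g (e + d) ∧ g e ≠ g (e + 2 * d) ∧
      g e ≠ g (e + 3 * d) ∧ g (e + d) ≠ g (e + 2 * d) ∧ g (e + d) ≠ g (e + 3 * d) ∧
      g (e + 2 * d) ≠ g (e + 3 * d) := by
  classical
  obtain ⟨z0, z1, hz, hodd, hc0, hc1⟩ := Nat.find_spec hex
  have hmin := fun D h => Nat.find_min hex (m := D) h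
  set D := Nat.find hex with hD
  have nochg : ∀ t t', t < t' → t' < t + D → (t' - t) % 2 = 1 → Chg g N t → Chg g N t' → False := by
    intro t t' h1 h2 h3 h4 h5
    exact hmin (t' - t) (by omega) ⟨t, t', by omega, h3, h4, h5⟩
  have hc0' := hc0
  have hc1' := hc1
  obtain ⟨p0, q0⟩ := hc0'
  obtain ⟨p1, q1⟩ := hc1'
  -- right of `z0`, same parity as `z0`
  have c0 := const_right g N z0 D (by
    intro t h1 h2 h3 h4
    rcases lt_trichotomy t z1 with h5 | h5 | h5
    · exact nochg t z1 h5 (by omega) (by omega) h4 hc1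
    · omega
    · exact nochg z1 t h5 (by omega) (by omega) hc1 h4)
  -- left of `z1`, same parity as `z1`
  have c1 := const_left g N z1 D (by omega) (by
    intro t h1 h2 h3 h4
    rcases lt_trichotomy t z0 with h5 | h5 | h5
    · exact nochg t z0 h5 (by omega) (by omega) h4 hc0
    · omega
    · exact nochg z0 t h5 (by omega) (by omega) hc0 h4)
  by_cases hD1 : D = 1
  · refine ⟨z0, 1, by norm_num, by omega, ?_, ?_, ?_, ?_, ?_, ?_⟩
    · exact hsep _ _ (by omega) (by omega) (by omega)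
    · exact q0
    · exact hsep _ _ (by omega) (by omega) (by omega)
    · exact hsep _ _ (by omega) (by omega) (by omega)
    · have : z1 = z0 + 1 := by omega
      rw [this] at q1
      exact q1
    · exact hsep _ _ (by omega) (by omega) (by omega)
  · have hAz := hA z0 z1 (by omega)
    obtain ⟨j, hj, d, hd⟩ : ∃ j ≤ 2, ∃ d, D + 2 + 2 * j = 3 * d := by
      have : D % 3 = 0 ∨ D % 3 = 1 ∨ D % 3 = 2 := by omega
      rcases this with h | h | h
      · exact ⟨2, by omega, (D + 6) / 3, by omega⟩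
      · exact ⟨0, by omega, (D + 2) / 3, by omega⟩
      · exact ⟨1, by omega, (D + 4) / 3, by omega⟩
    obtain ⟨j0, j1, hj01, hj0, hj1⟩ : ∃ j0 j1, j0 + j1 = j ∧ (j0 = 0 ∨ j0 < A z0) ∧
        (j1 = 0 ∨ j1 < A z1) := by
      by_cases h : j < A z0
      · exact ⟨j, 0, by omega, Or.inr h, Or.inl rfl⟩
      · by_cases h' : A z0 = 0
        · exact ⟨0, j, by omega, Or.inl rfl, Or.inr (by omega)⟩
        · exact ⟨A z0 - 1, j - (A z0 - 1), by omega, Or.inr (by omega), by omega⟩
    have e0 : 2 * j0 ≤ z0 ∧ g (z0 - 2 * j0) = g z0 := by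
      rcases hj0 with rfl | h
      · exact ⟨by omega, rfl⟩
      · exact hL z0 hc0 j0 h
    have e1 : z1 + 2 + 2 * j1 ≤ N ∧ g (z1 + 2 + 2 * j1) = g (z1 + 2) := by
      rcases hj1 with rfl | h
      · exact ⟨by omega, rfl⟩
      · exact hR z1 hc1 j1 h
    obtain ⟨l0, v0⟩ := e0
    obtain ⟨l1, v1⟩ := e1
    have hdodd : d % 2 = 1 := by omega
    have w3 : z0 - 2 * j0 + 3 * d = z1 + 2 + 2 * j1 := by omega
    -- the second term
    have w1 : g (z0 - 2 * j0 + d) = g z1 := by
      have h := c1 ((z1 - (z0 - 2 * j0 + d)) / 2) (by omega) (by omega)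
      rw [← h]
      congr 1
      omega
    -- the third term
    have w2 : g (z0 - 2 * j0 + 2 * d) = g (z0 + 2) := by
      have h := c0 ((2 * d - 2 * j0) / 2) (by omega) (by omega) (by omega)
      rw [← h]
      congr 1
      omega
    refine ⟨z0 - 2 * j0, d, by omega, by omega, ?_, ?_, ?_, ?_, ?_, ?_⟩
    · exact hsep _ _ (by omega) (by omega) (by omega)
    · rw [v0, w2]; exact q0
    · exact hsep _ _ (by omega) (by omega) (by omega)
    · exact hsep _ _ (by omega) (by omega) (by omega)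
    · rw [w1, w3, v1]; exact q1
    · exact hsep _ _ (by omega) (by omega) (by omega)

end seq

theorem result (m : ℕ) {κ : Type*} (c : ZMod (2 * m + 1) → κ) (s u : ZMod (2 * m + 1))
    (a b : ℕ) (hab : 4 ≤ a + b)
    (hsep : ∀ i ≤ m, ∀ j < m, c (s + i * u) ≠ c (s + (m + 1 + j : ℕ) * u))
    (hI : ∃ i ≤ m, ∃ i' ≤ m, c (s + i * u) ≠ c (s + i' * u))
    (hJ : ∃ j < m, ∃ j' < m, c (s + (m + 1 + j : ℕ) * u) ≠ c (s + (m + 1 + j' : ℕ) * u))
    (hrI : Runs a m fun k => c (s + k * u))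
    (hrJ : Runs b (m - 1) fun k => c (s + (m + 1 + k : ℕ) * u)) :
    ∃ x d : ZMod (2 * m + 1), d ≠ 0 ∧ Rainbow c x d := by
  set v : ZMod (2 * m + 1) := (m + 1 : ℕ) * u with hv
  have hn0 : ((2 * m + 1 : ℕ) : ZMod (2 * m + 1)) = 0 := ZMod.natCast_self _
  have h2v : 2 * v = u := by
    have : (2 : ZMod (2 * m + 1)) * ((m + 1 : ℕ) : ZMod (2 * m + 1)) =
        ((2 * m + 1 : ℕ) : ZMod (2 * m + 1)) + 1 := by push_cast; ring
    rw [hv, ← mul_assoc, this, hn0, zero_add, one_mul]
  set g : ℕ → κ := fun t => c (s + t * v) with hg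
  have gev : ∀ k, g (2 * k) = c (s + k * u) := by
    intro k
    simp only [hg]
    congr 2
    rw [← h2v]
    push_cast
    ring
  have god : ∀ k, g (2 * k + 1) = c (s + (m + 1 + k : ℕ) * u) := by
    intro k
    simp only [hg]
    congr 2
    have : ((m + 1 + k : ℕ) : ZMod (2 * m + 1)) * u = (k : ZMod (2 * m + 1)) * u + v := by
      rw [hv]; push_cast; ring
    rw [this]
    push_cast
    linear_combination (k : ZMod (2 * m + 1)) * h2v
  have chgE : ∀ k, Chg g (2 * m) (2 * k) ↔ k < m ∧ c (s + k * u) ≠ c (s + (k + 1 : ℕ) * u) := by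
    intro k
    unfold Chg
    rw [show 2 * k + 2 = 2 * (k + 1) by ring, gev, gev]
    constructor
    · rintro ⟨h1, h2⟩; exact ⟨by omega, h2⟩
    · rintro ⟨h1, h2⟩; exact ⟨by omega, h2⟩
  have chgO : ∀ k, Chg g (2 * m) (2 * k + 1) ↔ k < m - 1 ∧
      c (s + (m + 1 + k : ℕ) * u) ≠ c (s + (m + 1 + (k + 1) : ℕ) * u) := by
    intro k
    unfold Chg
    rw [show 2 * k + 1 + 2 = 2 * (k + 1) + 1 by ring, god, god]
    constructor
    · rintro ⟨h1, h2⟩; exact ⟨by omega, h2⟩
    · rintro ⟨h1, h2⟩; exact ⟨by omega, h2⟩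
  -- nonconstant sequences have a change
  have exch : ∀ (h : ℕ → κ) (M i i' : ℕ), i ≤ M → i' ≤ M → h i ≠ h i' →
      ∃ k < M, h k ≠ h (k + 1) := by
    intro h M i i' hi hi' hne
    by_contra hcon
    push Not at hcon
    have hall : ∀ k ≤ M, h k = h 0 := by
      intro k
      induction k with
      | zero => intro _; rfl
      | succ k ih => intro hk; rw [← hcon k (by omega)]; exact ih (by omega)
    exact hne ((hall i hi).trans (hall i' hi').symm)
  obtain ⟨i, hi, i', hi', hne⟩ := hI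
  obtain ⟨j, hj, j', hj', hne'⟩ := hJ
  obtain ⟨k0, hk0, hch0⟩ := exch (fun k => c (s + k * u)) m i i' hi hi' hne
  obtain ⟨k1, hk1, hch1⟩ := exch (fun k => c (s + (m + 1 + k : ℕ) * u)) (m - 1) j j'
    (by omega) (by omega) hne'
  have hC0 : Chg g (2 * m) (2 * k0) := (chgE k0).mpr ⟨hk0, hch0⟩
  have hC1 : Chg g (2 * m) (2 * k1 + 1) := (chgO k1).mpr ⟨hk1, hch1⟩
  have hex : ∃ D z0 z1, z0 + D = z1 ∧ D % 2 = 1 ∧ Chg g (2 * m) z0 ∧ Chg g (2 * m) z1 := by
    rcases le_or_gt (2 * k0) (2 * k1 + 1) with h | h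
    · exact ⟨2 * k1 + 1 - 2 * k0, 2 * k0, 2 * k1 + 1, by omega, by omega, hC0, hC1⟩
    · exact ⟨2 * k0 - (2 * k1 + 1), 2 * k1 + 1, 2 * k0, by omega, by omega, hC1, hC0⟩
  have par : ∀ t : ℕ, (∃ k, t = 2 * k) ∨ ∃ k, t = 2 * k + 1 := by
    intro t
    rcases Nat.even_or_odd' t with ⟨k, h | h⟩
    · exact Or.inl ⟨k, h⟩
    · exact Or.inr ⟨k, h⟩
  obtain ⟨e, d, hd, hN, r1, r2, r3, r4, r5, r6⟩ := seq_rainbow g (2 * m)
    (by
      intro t t' ht ht' hpar
      rcases par t with ⟨k, rfl⟩ | ⟨k, rfl⟩ <;> rcases par t' with ⟨k', rfl⟩ | ⟨k', rfl⟩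
      · omega
      · rw [gev, god]; exact hsep k (by omega) k' (by omega)
      · rw [gev, god]; exact (hsep k' (by omega) k (by omega)).symm
      · omega)
    (fun z => if z % 2 = 0 then a else b)
    (by
      intro z z' h
      by_cases h0 : z % 2 = 0
      · have : ¬ z' % 2 = 0 := by omega
        simp only [h0, this, if_true, if_false]; omega
      · have : z' % 2 = 0 := by omega
        simp only [h0, this, if_true, if_false]; omega)
    (by
      intro z hz j hj
      rcases par z with ⟨k, rfl⟩ | ⟨k, rfl⟩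
      · rw [if_pos (by omega)] at hj
        obtain ⟨h1, h2⟩ := (chgE k).mp hz
        obtain ⟨h3, h4⟩ := (hrI k h1 h2).1 j hj
        refine ⟨by omega, ?_⟩
        rw [show 2 * k - 2 * j = 2 * (k - j) by omega, gev, gev]
        exact h4
      · rw [if_neg (by omega)] at hj
        obtain ⟨h1, h2⟩ := (chgO k).mp hz
        obtain ⟨h3, h4⟩ := (hrJ k h1 h2).1 j hj
        refine ⟨by omega, ?_⟩
        rw [show 2 * k + 1 - 2 * j = 2 * (k - j) + 1 by omega, god, god]
        exact h4)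
    (by
      intro z hz j hj
      rcases par z with ⟨k, rfl⟩ | ⟨k, rfl⟩
      · rw [if_pos (by omega)] at hj
        obtain ⟨h1, h2⟩ := (chgE k).mp hz
        obtain ⟨h3, h4⟩ := (hrI k h1 h2).2 j hj
        refine ⟨by omega, ?_⟩
        rw [show 2 * k + 2 + 2 * j = 2 * (k + 1 + j) by omega,
          show 2 * k + 2 = 2 * (k + 1) by omega, gev, gev]
        exact h4
      · rw [if_neg (by omega)] at hj
        obtain ⟨h1, h2⟩ := (chgO k).mp hz
        obtain ⟨h3, h4⟩ := (hrJ k h1 h2).2 j hj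
        refine ⟨by omega, ?_⟩
        rw [show 2 * k + 1 + 2 + 2 * j = 2 * (k + 1 + j) + 1 by omega,
          show 2 * k + 1 + 2 = 2 * (k + 1) + 1 by omega, god, god]
        exact h4)
    hex
  have t1 : ∀ q : ℕ, c (s + e * v + q * (d * v)) = g (e + q * d) := by
    intro q
    simp only [hg]
    congr 1
    push_cast
    ring
  have t0 : c (s + e * v) = g e := rfl
  have u1 : c (s + e * v + d * v) = g (e + d) := by
    have := t1 1; simpa using this
  have u2 : c (s + e * v + 2 * (d * v)) = g (e + 2 * d) := by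
    have := t1 2; simpa using this
  have u3 : c (s + e * v + 3 * (d * v)) = g (e + 3 * d) := by
    have := t1 3; simpa using this
  refine ⟨s + e * v, d * v, ?_, ?_⟩
  · intro h0
    apply r1
    rw [← t0, ← u1, h0, add_zero]
  · unfold Rainbow
    rw [t0, u1, u2, u3]
    exact ⟨r1, r2, r3, r4, r5, r6⟩

end Pool.Agent.Results.MP_ae1ffe_co.HalfProgressionRuns
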