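import Mathlib

/-! # Colourings of `ZMod n` without rainbow 4-term progressions and with large classes

For every `n ≥ 1` there is a 4-colouring of `ZMod n` without rainbow 4-term arithmetic progression
in which every colour is used at least `(n - 43) / 11` times. The circle is cut into 44 arcs of
(almost) equal length which are coloured by one fixed word of length 44. -/

namespace Pool.Agent.Results.MP_ae1ffe_co.NoRainbowEleventh

open Finset

/-- the fixed word `AACDDCAAAAAAABDDBAAAAAAAACCAAAAAAAAABBAAAAAA`, in base four -/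
def col (j : ℕ) : ℕ := 23611843673355683105760 / 4 ^ j % 4

theorem col_lt (j : ℕ) : col j < 4 := Nat.mod_lt _ (by norm_num)

/-- the arc of `x` -/
def arc (n x : ℕ) : ℕ := 44 * x / n

/-- four different numbers -/
def diff4 (a b c d : ℕ) : Bool :=
  !(Nat.beq a b || Nat.beq a c || Nat.beq a d || Nat.beq b c || Nat.beq b d || Nat.beq c d)

/-- the finite check: arcs of four points in progression -/
def chk : Bool :=
  (List.range 44).all fun b0 => (List.range 44).all fun b1 =>
    [(0, 0), (0, 1), (1, 0), (0, 43), (43, 0), (1, 43), (43, 1)].all fun e =>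
      (fun b2 => (fun b3 => !diff4 (col b0) (col b1) (col b2) (col b3))
        ((2 * b2 + 44 - b1 + e.2) % 44)) ((2 * b1 + 44 - b0 + e.1) % 44)

theorem chk_true : chk = true := by decide +kernel

theorem chk_spec (b0 b1 e1 e2 : ℕ) (h0 : b0 < 44) (h1 : b1 < 44)
    (he : (e1, e2) ∈ [(0, 0), (0, 1), (1, 0), (0, 43), (43, 0), (1, 43), (43, 1)]) :
    diff4 (col b0) (col b1) (col ((2 * b1 + 44 - b0 + e1) % 44))
      (col ((2 * ((2 * b1 + 44 - b0 + e1) % 44) + 44 - b1 + e2) % 44)) = false := by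
  have h := chk_true
  unfold chk at h
  rw [List.all_eq_true] at h
  have h2 := h b0 (List.mem_range.mpr h0)
  rw [List.all_eq_true] at h2
  have h3 := h2 b1 (List.mem_range.mpr h1)
  rw [List.all_eq_true] at h3
  have h4 := h3 (e1, e2) he
  simpa using h4

theorem arc_lt {n x : ℕ} (hx : x < n) : arc n x < 44 := by
  unfold arc
  exact Nat.div_lt_of_lt_mul (by nlinarith)

/-- colours of four points in progression -/
theorem key (n : ℕ) (x0 x1 x2 x3 : ℕ) (h0 : x0 < n) (h1 : x1 < n) (h2 : x2 < n)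
    (h3 : x3 < n) (k1 k2 : ℤ) (e1 : (x0 : ℤ) + x2 - 2 * x1 = k1 * n)
    (e2 : (x1 : ℤ) + x3 - 2 * x2 = k2 * n) :
    diff4 (col (arc n x0)) (col (arc n x1)) (col (arc n x2)) (col (arc n x3)) = false := by
  have hn : 0 < n := by omega
  have hnZ : (0 : ℤ) < n := by exact_mod_cast hn
  have hr : ∀ x : ℕ, x < n → ∃ r : ℤ, 0 ≤ r ∧ r < n ∧ 44 * (x : ℤ) = n * (arc n x : ℤ) + r := by
    intro x _
    refine ⟨((44 * x % n : ℕ) : ℤ), by positivity, by exact_mod_cast Nat.mod_lt _ hn, ?_⟩
    have := Nat.div_add_mod (44 * x) n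
    unfold arc
    exact_mod_cast this.symm
  obtain ⟨r0, p0, q0, s0⟩ := hr x0 h0
  obtain ⟨r1, p1, q1, s1⟩ := hr x1 h1
  obtain ⟨r2, p2, q2, s2⟩ := hr x2 h2
  obtain ⟨r3, p3, q3, s3⟩ := hr x3 h3
  have a0 := arc_lt h0
  have a1 := arc_lt h1
  have a2 := arc_lt h2
  have a3 := arc_lt h3
  generalize arc n x0 = b0 at *
  generalize arc n x1 = b1 at *
  generalize arc n x2 = b2 at *
  generalize arc n x3 = b3 at *
  -- the carries
  obtain ⟨c1, hc1⟩ : ∃ c1 : ℤ, c1 = (b0 : ℤ) + b2 - 2 * b1 - 44 * k1 := ⟨_, rfl⟩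
  obtain ⟨c2, hc2⟩ : ∃ c2 : ℤ, c2 = (b1 : ℤ) + b3 - 2 * b2 - 44 * k2 := ⟨_, rfl⟩
  have t1 : (n : ℤ) * c1 = -(r0 + r2 - 2 * r1) := by
    rw [hc1]; linear_combination (44 : ℤ) * e1 - s0 - s2 + 2 * s1
  have t2 : (n : ℤ) * c2 = -(r1 + r3 - 2 * r2) := by
    rw [hc2]; linear_combination (44 : ℤ) * e2 - s1 - s3 + 2 * s2
  have u1 : -2 < c1 := by
    by_contra hcon
    have : c1 ≤ -2 := by omega
    nlinarith
  have v1 : c1 < 2 := by
    by_contra hcon
    have : 2 ≤ c1 := by omega
    nlinarith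
  have u2 : -2 < c2 := by
    by_contra hcon
    have : c2 ≤ -2 := by omega
    nlinarith
  have v2 : c2 < 2 := by
    by_contra hcon
    have : 2 ≤ c2 := by omega
    nlinarith
  have w1 : ¬ (c1 = 1 ∧ c2 = 1) := by
    rintro ⟨rfl, rfl⟩
    nlinarith
  have w2 : ¬ (c1 = -1 ∧ c2 = -1) := by
    rintro ⟨rfl, rfl⟩
    nlinarith
  have g1 : ∀ e : ℕ, (e : ℤ) = c1 ∨ (e : ℤ) = c1 + 44 → b2 = (2 * b1 + 44 - b0 + e) % 44 := by
    intro e he
    omega
  have g2 : ∀ e : ℕ, (e : ℤ) = c2 ∨ (e : ℤ) = c2 + 44 → b3 = (2 * b2 + 44 - b1 + e) % 44 := by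
    intro e he
    omega
  have fin : ∀ e f : ℕ, ((e : ℤ) = c1 ∨ (e : ℤ) = c1 + 44) → ((f : ℤ) = c2 ∨ (f : ℤ) = c2 + 44) →
      (e, f) ∈ [(0, 0), (0, 1), (1, 0), (0, 43), (43, 0), (1, 43), (43, 1)] →
      diff4 (col b0) (col b1) (col b2) (col b3) = false := by
    intro e f he hf hmem
    have := chk_spec b0 b1 e f a0 a1 hmem
    rw [← g1 e he, ← g2 f hf] at this
    exact this
  have d1 : c1 = -1 ∨ c1 = 0 ∨ c1 = 1 := by omega
  have d2 : c2 = -1 ∨ c2 = 0 ∨ c2 = 1 := by omega
  rcases d1 with h | h | h <;> rcases d2 with h' | h' | h'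
  · exact absurd ⟨h, h'⟩ w2
  · exact fin 43 0 (by rw [h]; norm_num) (by rw [h']; norm_num) (by decide)
  · exact fin 43 1 (by rw [h]; norm_num) (by rw [h']; norm_num) (by decide)
  · exact fin 0 43 (by rw [h]; norm_num) (by rw [h']; norm_num) (by decide)
  · exact fin 0 0 (by rw [h]; norm_num) (by rw [h']; norm_num) (by decide)
  · exact fin 0 1 (by rw [h]; norm_num) (by rw [h']; norm_num) (by decide)
  · exact fin 1 43 (by rw [h]; norm_num) (by rw [h']; norm_num) (by decide)
  · exact fin 1 0 (by rw [h]; norm_num) (by rw [h']; norm_num) (by decide)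
  · exact absurd ⟨h, h'⟩ w1

/-- each arc has at least `n / 44` points -/
theorem arc_card (n : ℕ) (hn : 0 < n) (j : ℕ) (hj : j < 44) :
    n / 44 ≤ ((range n).filter fun x => arc n x = j).card := by
  have hsub : Ico ((j * n + 43) / 44) (((j + 1) * n + 43) / 44) ⊆
      (range n).filter fun x => arc n x = j := by
    intro x hx
    rw [mem_Ico] at hx
    rw [mem_filter, mem_range]
    have h1 : j * n ≤ 44 * x := by omega
    have h2 : 44 * x < (j + 1) * n := by omega
    have h3 : (j + 1) * n ≤ 44 * n := Nat.mul_le_mul_right _ (by omega)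
    refine ⟨by omega, ?_⟩
    unfold arc
    rw [Nat.div_eq_iff hn]
    constructor
    · exact h1
    · have : (j + 1) * n = j * n + n := by ring
      omega
  calc n / 44 ≤ ((j + 1) * n + 43) / 44 - (j * n + 43) / 44 := by
        have : (j + 1) * n = j * n + n := by ring
        omega
    _ = (Ico ((j * n + 43) / 44) (((j + 1) * n + 43) / 44)).card := by rw [Nat.card_Ico]
    _ ≤ _ := card_le_card hsub

theorem class_card (n : ℕ) (hn : 0 < n) (k : ℕ) (hk : k < 4) :
    n ≤ 11 * ((range n).filter fun x => col (arc n x) = k).card + 43 := by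
  have h1 : ((range n).filter fun x => col (arc n x) = k).card =
      ∑ j ∈ range 44, (((range n).filter fun x => col (arc n x) = k).filter
        fun x => arc n x = j).card := by
    apply card_eq_sum_card_fiberwise
    intro x hx
    have hx' := (mem_filter.mp hx).1
    exact mem_coe.mpr (mem_range.mpr (arc_lt (mem_range.mp hx')))
  have h2 : ∀ j ∈ range 44, (if col j = k then n / 44 else 0) ≤
      (((range n).filter fun x => col (arc n x) = k).filter fun x => arc n x = j).card := by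
    intro j hj
    split_ifs with h
    · refine (arc_card n hn j (mem_range.mp hj)).trans (card_le_card ?_)
      intro x hx
      rw [mem_filter] at hx
      rw [mem_filter, mem_filter]
      exact ⟨⟨hx.1, by rw [hx.2, h]⟩, hx.2⟩
    · exact Nat.zero_le _
  have h3 : 4 * (n / 44) ≤ ∑ j ∈ range 44, (if col j = k then n / 44 else 0) := by
    rw [← sum_filter, sum_const, smul_eq_mul]
    apply Nat.mul_le_mul_right
    interval_cases k <;> decide +kernel
  have h4 := sum_le_sum h2
  rw [← h1] at h4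
  omega

/-- `a, a + d, a + 2d, a + 3d` have four different colours -/
def Rainbow {n : ℕ} (c : ZMod n → Fin 4) (a d : ZMod n) : Prop :=
  c a ≠ c (a + d) ∧ c a ≠ c (a + 2 * d) ∧ c a ≠ c (a + 3 * d) ∧
    c (a + d) ≠ c (a + 2 * d) ∧ c (a + d) ≠ c (a + 3 * d) ∧ c (a + 2 * d) ≠ c (a + 3 * d)

theorem result (n : ℕ) [NeZero n] : ∃ c : ZMod n → Fin 4,
    (∀ k, n ≤ 11 * (univ.filter fun x => c x = k).card + 43) ∧
      ∀ a d : ZMod n, ¬ Rainbow c a d := by
  have hn : 0 < n := Nat.pos_of_ne_zero (NeZero.ne n)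
  refine ⟨fun x => ⟨col (arc n x.val), col_lt _⟩, ?_, ?_⟩
  · intro k
    have h := class_card n hn k.val k.isLt
    have e : (univ.filter fun x : ZMod n => (⟨col (arc n x.val), col_lt _⟩ : Fin 4) = k).card =
        ((range n).filter fun x => col (arc n x) = k.val).card := by
      apply card_nbij' (fun x : ZMod n => x.val) (fun m : ℕ => (m : ZMod n))
      · intro x hx
        have hx' := (mem_filter.mp hx).2
        simp only [coe_filter, Set.mem_ofPred_eq, mem_range]
        exact ⟨ZMod.val_lt x, by rw [← hx']⟩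
      · intro m hm
        simp only [coe_filter, Set.mem_ofPred_eq, mem_range] at hm
        simp only [coe_filter, Set.mem_ofPred_eq, mem_univ, true_and]
        apply Fin.ext
        simp only
        rw [ZMod.val_natCast_of_lt hm.1]
        exact hm.2
      · intro x _
        exact ZMod.natCast_zmod_val x
      · intro m hm
        simp only [coe_filter, Set.mem_ofPred_eq, mem_range] at hm
        exact ZMod.val_natCast_of_lt hm.1
    rw [e]
    exact h
  · intro a d hR
    have cong : ∀ u v w : ZMod n, u + w = 2 * v → ∃ k : ℤ,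
        (u.val : ℤ) + w.val - 2 * v.val = k * n := by
      intro u v w h
      have h1 : (((u.val : ℤ) + w.val - 2 * v.val : ℤ) : ZMod n) = 0 := by
        push_cast
        rw [ZMod.natCast_zmod_val, ZMod.natCast_zmod_val, ZMod.natCast_zmod_val, h, sub_self]
      rw [ZMod.intCast_zmod_eq_zero_iff_dvd] at h1
      obtain ⟨k, hk⟩ := h1
      exact ⟨k, by rw [hk]; ring⟩
    obtain ⟨k1, e1⟩ := cong a (a + d) (a + 2 * d) (by ring)
    obtain ⟨k2, e2⟩ := cong (a + d) (a + 2 * d) (a + 3 * d) (by ring)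
    have h := key n a.val (a + d).val (a + 2 * d).val (a + 3 * d).val (ZMod.val_lt _)
      (ZMod.val_lt _) (ZMod.val_lt _) (ZMod.val_lt _) k1 k2 e1 e2
    unfold diff4 at h
    simp only [Bool.not_eq_false', Bool.or_eq_true, Nat.beq_eq] at h
    obtain ⟨r1, r2, r3, r4, r5, r6⟩ := hR
    simp only [ne_eq, Fin.mk.injEq] at r1 r2 r3 r4 r5 r6
    tauto

end Pool.Agent.Results.MP_ae1ffe_co.NoRainbowEleventh
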