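import Pool.Agent.Helper681_winC.Lemma

/-! # Rainbow three term progressions whose missing colour follows within two further steps

Let `G` be a finite abelian group of order coprime to `2310 = 2·3·5·7·11` (for example `ZMod p`
with `p ≥ 13` prime) coloured so that no colour is used on more than `25.18%` of the elements.
Then at least `|G|² / 10⁸` pairs `(a, d)` with `d ≠ 0` are such that `a, a + d, a + 2d` and one of
`a + 3d, a + 4d, a + 5d` have four different colours. For `p ≥ 419` prime every balanced
4-colouring of `ZMod p` satisfies the hypothesis (theorem `balanced_case`), so it has a six term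
progression whose first three terms have different colours and which contains all four colours. -/

namespace Pool.Agent.Results.MP_ae1ffe_co.RainbowTripleThenFourth

open Finset Helper681 Helper681C

/-- Four values that are pairwise different. -/
def Distinct4 {κ : Type*} (u v w x : κ) : Prop :=
  u ≠ v ∧ u ≠ w ∧ u ≠ x ∧ v ≠ w ∧ v ≠ x ∧ w ≠ x

/-- `a, a + d, a + 2d` and one of `a + 3d, a + 4d, a + 5d` have four different colours. -/
def Good {G : Type*} [AddCommGroup G] {κ : Type*} (c : G → κ) (a d : G) : Prop :=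
  Distinct4 (c a) (c (a + d)) (c (a + 2 • d)) (c (a + 3 • d)) ∨
  Distinct4 (c a) (c (a + d)) (c (a + 2 • d)) (c (a + 4 • d)) ∨
  Distinct4 (c a) (c (a + d)) (c (a + 2 • d)) (c (a + 5 • d))

instance {κ : Type*} [DecidableEq κ] (u v w x : κ) : Decidable (Distinct4 u v w x) := by
  unfold Distinct4; infer_instance

instance {G : Type*} [AddCommGroup G] {κ : Type*} [DecidableEq κ] (c : G → κ) (a d : G) :
    Decidable (Good c a d) := by
  unfold Good; infer_instance

theorem Good.ne_zero {G : Type*} [AddCommGroup G] {κ : Type*} {c : G → κ} {a d : G}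
    (h : Good c a d) : d ≠ 0 := by
  rintro rfl
  rcases h with h | h | h <;> exact h.1 (by rw [add_zero])

theorem zsmul_bij {G : Type*} [AddCommGroup G] [Fintype G] (hG : (Fintype.card G).Coprime 2310)
    (r : ℕ) (h0 : 0 < r) (h13 : r < 13) : Function.Bijective fun d : G => (r : ℤ) • d := by
  have h1 : r ∣ 2310 ^ 3 := by interval_cases r <;> norm_num
  have h2 : (Nat.card G).Coprime r := by
    rw [Nat.card_eq_fintype_card]
    exact (Nat.Coprime.pow_right 3 hG).coprime_dvd_right h1
  have h3 := h2.nsmul_right_bijective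
  simpa only [natCast_zsmul] using h3

theorem zsmul_bij_neg {G : Type*} [AddCommGroup G] [Fintype G]
    (hG : (Fintype.card G).Coprime 2310)
    (r : ℕ) (h0 : 0 < r) (h13 : r < 13) : Function.Bijective fun d : G => (-(r : ℤ)) • d := by
  have h := zsmul_bij hG r h0 h13
  have h2 : (fun d : G => (-(r : ℤ)) • d) = (fun d : G => -d) ∘ fun d : G => (r : ℤ) • d := by
    funext d
    simp
  rw [h2]
  exact (Equiv.neg G).bijective.comp h

/-- dilation factors used -/
def RS : Finset ℤ := {1, 2, 3, 4, -1, -2, -3, -4}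

/-- indicator of a good pair -/
def II {G : Type*} [AddCommGroup G] {κ : Type*} [DecidableEq κ] (c : G → κ) (a d : G) : ℤ :=
  if Good c a d then 1 else 0

theorem II_nonneg {G : Type*} [AddCommGroup G] {κ : Type*} [DecidableEq κ] (c : G → κ) (a d : G) :
    0 ≤ II c a d := by
  unfold II; split_ifs <;> norm_num

theorem window_bound {G : Type*} [AddCommGroup G] {κ : Type*} [DecidableEq κ] (c : G → κ)
    (x d : G) : TT Lw Qw 13 (fun i => c (x + i • d)) + 52260 ≤
      5784753 * ∑ s ∈ range 13, ∑ r ∈ RS, II c (x + (s : ℤ) • d) (r • d) := by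
  by_cases hall : ∀ s ∈ range 13, ∀ r ∈ RS, ¬ Good c (x + (s : ℤ) • d) (r • d)
  · have h := window (fun i => c (x + i • d)) (by
      intro s hs r hr hr0
      have hpos : (r : ℤ) ∈ RS := by
        unfold RS
        interval_cases r <;> decide
      have hneg : -(r : ℤ) ∈ RS := by
        unfold RS
        interval_cases r <;> decide
      have h1 := hall s (mem_range.mpr hs) _ hpos
      have h2 := hall s (mem_range.mpr hs) _ hneg
      have e1 : ∀ t : ℕ, x + (s : ℤ) • d + t • ((r : ℤ) • d) = x + (s + t * r) • d := by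
        intro t
        rw [← natCast_zsmul, ← natCast_zsmul, ← mul_smul, add_assoc, ← add_smul]
        push_cast
        rfl
      have e2 : ∀ t : ℕ, t * r ≤ s →
          x + (s : ℤ) • d + t • ((-(r : ℤ)) • d) = x + (s - t * r) • d := by
        intro t ht
        rw [← natCast_zsmul, ← natCast_zsmul, ← mul_smul, add_assoc, ← add_smul]
        rw [Nat.cast_sub ht]
        push_cast
        congr 2
        ring
      have e3 : x + (s : ℤ) • d + ((r : ℤ) • d) = x + (s + r) • d := by
        have := e1 1; rwa [one_smul, one_mul] at this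
      have e0 : x + (s : ℤ) • d = x + s • d := by rw [natCast_zsmul]
      simp only [Good, not_or] at h1 h2
      rw [e1, e1, e1, e1, e3, e0] at h1
      obtain ⟨p1, p2, p3⟩ := h1
      refine ⟨p1, p2, p3, ?_, ?_⟩
      · intro hle
        have e4 : x + (s : ℤ) • d + ((-(r : ℤ)) • d) = x + (s - r) • d := by
          have := e2 1 (by omega); rwa [one_smul, one_mul] at this
        rw [e2 2 (by omega), e2 4 (by omega), e4, e0] at h2
        exact h2.2.1
      · intro hle
        have e4 : x + (s : ℤ) • d + ((-(r : ℤ)) • d) = x + (s - r) • d := by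
          have := e2 1 (by omega); rwa [one_smul, one_mul] at this
        rw [e2 2 (by omega), e2 5 (by omega), e4, e0] at h2
        exact h2.2.2)
    have hz : 0 ≤ ∑ s ∈ range 13, ∑ r ∈ RS, II c (x + (s : ℤ) • d) (r • d) :=
      sum_nonneg fun _ _ => sum_nonneg fun _ _ => II_nonneg _ _ _
    linarith
  · push Not at hall
    obtain ⟨s, hs, r, hr, hg⟩ := hall
    have h1 : 1 ≤ ∑ s ∈ range 13, ∑ r ∈ RS, II c (x + (s : ℤ) • d) (r • d) := by
      calc (1 : ℤ) = II c (x + (s : ℤ) • d) (r • d) := by unfold II; rw [if_pos hg]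
        _ ≤ ∑ r ∈ RS, II c (x + (s : ℤ) • d) (r • d) :=
            single_le_sum (f := fun r : ℤ => II c (x + (s : ℤ) • d) (r • d))
              (fun _ _ => II_nonneg _ _ _) hr
        _ ≤ _ := single_le_sum (f := fun s : ℕ => ∑ r ∈ RS, II c (x + (s : ℤ) • d) (r • d))
              (fun _ _ => sum_nonneg fun _ _ => II_nonneg _ _ _) hs
    have h2 := TT_le (fun i => c (x + i • d))
    linarith

theorem result {G : Type*} [AddCommGroup G] [Fintype G] [DecidableEq G]
    {κ : Type*} [DecidableEq κ]
    (hG : (Fintype.card G).Coprime 2310) (c : G → κ)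
    (hc : ∀ k, 10000 * (univ.filter fun x => c x = k).card ≤ 2518 * Fintype.card G) :
    (Fintype.card G) ^ 2 ≤
      10 ^ 8 * (univ.filter fun p : G × G => p.2 ≠ 0 ∧ Good c p.1 p.2).card := by
  set N := Fintype.card G with hN
  have hbij := zsmul_bij hG
  -- total of the functional
  have h1 := sum_TT c Lw Qw 13 hbij
  have h2 : ∑ i ∈ range 13, ∑ a ∈ range i, ∑ i' ∈ range i, ∑ a' ∈ range i',
      Qw a' i' a i * N4 c a' i' a i = 0 :=
    quad_zero c 13 le_rfl 1995 24 vq hbij quad_chk
  rw [h2, add_zero, sumL] at h1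
  have h3 := SS_le c (2518 * N / 10000) (by
    intro k
    have := hc k
    omega)
  have h4 : ((2518 * N / 10000 : ℕ) : ℤ) * 10000 ≤ 2518 * (N : ℤ) := by
    have : 2518 * N / 10000 * 10000 ≤ 2518 * N := Nat.div_mul_le_self _ _
    exact_mod_cast this
  -- good pairs
  have h5 : ∑ x : G, ∑ d : G, (5784753 * ∑ s ∈ range 13, ∑ r ∈ RS,
      II c (x + (s : ℤ) • d) (r • d)) = 5784753 * (104 * ∑ x : G, ∑ d : G, II c x d) := by
    have hRS : ∀ r ∈ RS, Function.Bijective fun d : G => r • d := by
      intro r hr
      simp only [RS, mem_insert, mem_singleton] at hr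
      rcases hr with rfl | rfl | rfl | rfl | rfl | rfl | rfl | rfl
      · exact hbij 1 (by norm_num) (by norm_num)
      · exact hbij 2 (by norm_num) (by norm_num)
      · exact hbij 3 (by norm_num) (by norm_num)
      · exact hbij 4 (by norm_num) (by norm_num)
      · exact zsmul_bij_neg hG 1 (by norm_num) (by norm_num)
      · exact zsmul_bij_neg hG 2 (by norm_num) (by norm_num)
      · exact zsmul_bij_neg hG 3 (by norm_num) (by norm_num)
      · exact zsmul_bij_neg hG 4 (by norm_num) (by norm_num)
    simp only [← mul_sum]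
    congr 1
    have hsw : ∑ x : G, ∑ d : G, ∑ s ∈ range 13, ∑ r ∈ RS, II c (x + (s : ℤ) • d) (r • d) =
        ∑ s ∈ range 13, ∑ r ∈ RS, ∑ x : G, ∑ d : G, II c (x + (s : ℤ) • d) (r • d) := by
      calc _ = ∑ x : G, ∑ s ∈ range 13, ∑ r ∈ RS, ∑ d : G, II c (x + (s : ℤ) • d) (r • d) := by
            refine sum_congr rfl fun x _ => ?_
            rw [sum_comm]
            refine sum_congr rfl fun s _ => ?_
            rw [sum_comm]
        _ = _ := by
            rw [sum_comm]
            refine sum_congr rfl fun s _ => ?_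
            rw [sum_comm]
    rw [hsw]
    have : ∀ s ∈ range 13, ∑ r ∈ RS, ∑ x : G, ∑ d : G, II c (x + (s : ℤ) • d) (r • d) =
        8 * ∑ x : G, ∑ d : G, II c x d := by
      intro s _
      rw [sum_congr rfl fun r hr => sum_aff (fun x d => II c x d) r s (hRS r hr)]
      rw [sum_const]
      have : RS.card = 8 := by decide
      rw [this]
      simp
    rw [sum_congr rfl this, sum_const, card_range]
    ring
  have h6 : ∑ x : G, ∑ d : G, II c x d =
      ((univ.filter fun p : G × G => p.2 ≠ 0 ∧ Good c p.1 p.2).card : ℤ) := by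
    rw [card_filter, ← Fintype.sum_prod_type']
    push_cast
    refine sum_congr rfl fun p _ => ?_
    unfold II
    by_cases hp : Good c p.1 p.2
    · rw [if_pos hp, if_pos ⟨hp.ne_zero, hp⟩]
    · rw [if_neg hp, if_neg fun h => hp h.2]
  have h7 : ∑ x : G, ∑ d : G, (TT Lw Qw 13 (fun i => c (x + i • d)) + 52260) ≤
      ∑ x : G, ∑ d : G, (5784753 * ∑ s ∈ range 13, ∑ r ∈ RS,
        II c (x + (s : ℤ) • d) (r • d)) :=
    sum_le_sum fun x _ => sum_le_sum fun d _ => window_bound c x d
  rw [h5, h6] at h7
  have h8 : ∑ x : G, ∑ d : G, (TT Lw Qw 13 (fun i => c (x + i • d)) + 52260) =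
      -207480 * SS c + 52260 * (N : ℤ) ^ 2 := by
    simp only [sum_add_distrib, h1]
    simp [← hN]
    ring
  rw [h8] at h7
  set X := (univ.filter fun p : G × G => p.2 ≠ 0 ∧ Good c p.1 p.2).card with hX
  have h9 : (SS c) * 10000 ≤ 2518 * (N : ℤ) ^ 2 := by
    have hN0 : (0 : ℤ) ≤ N := by positivity
    nlinarith [mul_le_mul_of_nonneg_left h4 hN0]
  have h10 : ((N : ℤ)) ^ 2 ≤ 10 ^ 8 * X := by
    nlinarith
  exact_mod_cast h10

/-- A balanced 4-colouring of `ZMod p`, `p ≥ 419` prime, satisfies the hypothesis of `result`. -/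
theorem balanced_case (p : ℕ) [hp : Fact p.Prime] (h : 419 ≤ p) (c : ZMod p → Fin 4)
    (hc : ∀ k, (univ.filter fun x => c x = k).card = p / 4 ∨
      (univ.filter fun x => c x = k).card = (p + 3) / 4) :
    p ^ 2 ≤ 10 ^ 8 * (univ.filter fun q : ZMod p × ZMod p => q.2 ≠ 0 ∧ Good c q.1 q.2).card := by
  have h1 : (Fintype.card (ZMod p)).Coprime 2310 := by
    rw [ZMod.card]
    refine (Nat.Prime.coprime_iff_not_dvd hp.out).mpr fun hd => ?_
    have h2 : p ∈ Nat.primeFactors 2310 := Nat.mem_primeFactors.mpr ⟨hp.out, hd, by norm_num⟩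
    have h3 : Nat.primeFactors 2310 ⊆ range 12 := by
      intro q hq
      have hq' := Nat.mem_primeFactors.mp hq
      have : q ∣ 2 * 3 * 5 * 7 * 11 := by simpa using hq'.2.1
      have hqp := hq'.1
      rcases (hqp.dvd_mul.mp this) with h | h
      · rcases (hqp.dvd_mul.mp h) with h | h
        · rcases (hqp.dvd_mul.mp h) with h | h
          · rcases (hqp.dvd_mul.mp h) with h | h
            · exact mem_range.mpr ((Nat.le_of_dvd (by norm_num) h).trans_lt (by norm_num))
            · exact mem_range.mpr ((Nat.le_of_dvd (by norm_num) h).trans_lt (by norm_num))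
          · exact mem_range.mpr ((Nat.le_of_dvd (by norm_num) h).trans_lt (by norm_num))
        · exact mem_range.mpr ((Nat.le_of_dvd (by norm_num) h).trans_lt (by norm_num))
      · exact mem_range.mpr ((Nat.le_of_dvd (by norm_num) h).trans_lt (by norm_num))
    have := mem_range.mp (h3 h2)
    omega
  have h4 := result h1 c (by
    intro k
    rw [ZMod.card]
    rcases hc k with h | h <;> rw [h] <;> omega)
  rwa [ZMod.card] at h4

end Pool.Agent.Results.MP_ae1ffe_co.RainbowTripleThenFourth
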