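import Mathlib

/-! # Two colour classes that are progressions with the same difference

`n ≥ 1000`, `c` colours `ZMod n`, the class of the colour `α` is `{s + i * u : 0 ≤ i < a}` and the
class of the colour `β` is `{s + (a + k + i) * u : 0 ≤ i < b}` with `u` a unit and
`0.24 n ≤ a, b ≤ 0.26 n`. If the remaining elements are not all of one colour, there is a rainbow
4-term progression. -/

namespace Pool.Agent.Results.MP_ae1ffe_co.TwoProgressionClasses

/-- `x, x + d, x + 2d, x + 3d` have four different colours -/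
def Rainbow {n : ℕ} {κ : Type*} (c : ZMod n → κ) (x d : ZMod n) : Prop :=
  c x ≠ c (x + d) ∧ c x ≠ c (x + 2 * d) ∧ c x ≠ c (x + 3 * d) ∧
    c (x + d) ≠ c (x + 2 * d) ∧ c (x + d) ≠ c (x + 3 * d) ∧ c (x + 2 * d) ≠ c (x + 3 * d)

variable {κ : Type*}

/-- a periodic colouring without rainbow progressions, read along the progression: a gap `[0, L)`,
the class of `α` at `[L, L + a)`, a gap of length `k`, the class of `β` at `[-b, 0)` -/
structure Conf (g : ℤ → κ) (n L a k b : ℤ) (α β : κ) : Prop where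
  hn : n = L + a + k + b
  per : ∀ t, g (t + n) = g t
  hA : ∀ t, L ≤ t → t < L + a → g t = α
  hB : ∀ t, -b ≤ t → t < 0 → g t = β
  h2 : ∀ t, 0 ≤ t → t < L → g t ≠ α ∧ g t ≠ β
  h1 : ∀ t, L + a ≤ t → t < L + a + k → g t ≠ α ∧ g t ≠ β
  ab : α ≠ β
  nr : ∀ x d, ¬ (g x ≠ g (x + d) ∧ g x ≠ g (x + 2 * d) ∧ g x ≠ g (x + 3 * d) ∧
    g (x + d) ≠ g (x + 2 * d) ∧ g (x + d) ≠ g (x + 3 * d) ∧ g (x + 2 * d) ≠ g (x + 3 * d))

namespace Conf

variable {g : ℤ → κ} {n L a k b : ℤ} {α β : κ}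

theorem per' (h : Conf g n L a k b α β) (t : ℤ) : g t = g (t - n) := by
  have := h.per (t - n)
  rwa [sub_add_cancel] at this

/-- the reflected configuration -/
theorem reflect (h : Conf g n L a k b α β) : Conf (fun t => g (L - 1 - t)) n L b k a β α where
  hn := by have := h.hn; omega
  per t := by
    have := h.per (L - 1 - (t + n))
    rw [← this]
    congr 1
    ring
  hA t h1 h2 := h.hB _ (by omega) (by omega)
  hB t h1 h2 := h.hA _ (by omega) (by omega)
  h2 t h1 h2 := (h.h2 _ (by omega) (by omega)).symm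
  h1 t h1 h2 := by
    have hn := h.hn
    have := h.h1 (L - 1 - t + n) (by omega) (by omega)
    rw [h.per] at this
    exact this.symm
  ab := h.ab.symm
  nr x d := by
    have := h.nr (L - 1 - x) (-d)
    have e1 : L - 1 - x + -d = L - 1 - (x + d) := by ring
    have e2 : L - 1 - x + 2 * -d = L - 1 - (x + 2 * d) := by ring
    have e3 : L - 1 - x + 3 * -d = L - 1 - (x + 3 * d) := by ring
    rw [e1, e2, e3] at this
    exact this

theorem p2 (h : Conf g n L a k b α β) {u w : ℤ} (hu : 0 ≤ u) (hw : w < L)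
    (h1 : -b ≤ 2 * u - w) (h1' : 2 * u - w < 0) (h2 : L ≤ 2 * w - u) (h2' : 2 * w - u < L + a) :
    g u = g w := by
  by_contra hne
  have := h.nr (2 * u - w) (w - u)
  have e1 : 2 * u - w + (w - u) = u := by ring
  have e2 : 2 * u - w + 2 * (w - u) = w := by ring
  have e3 : 2 * u - w + 3 * (w - u) = 2 * w - u := by ring
  rw [e1, e2, e3, h.hB _ h1 h1', h.hA _ h2 h2'] at this
  obtain ⟨p, q⟩ := h.h2 u hu (by omega)
  obtain ⟨r, s⟩ := h.h2 w (by omega) hw
  exact this ⟨q.symm, s.symm, h.ab.symm, hne, p, r⟩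

theorem q1 (h : Conf g n L a k b α β) {z d : ℤ} (hz : 0 ≤ z) (hd : 0 < d) (hw : z + d < L)
    (h2 : L ≤ z + 2 * d) (h2' : z + 2 * d < L + a) (h3 : n - b ≤ z + 3 * d)
    (h3' : z + 3 * d < n) : g z = g (z + d) := by
  by_contra hne
  have := h.nr z d
  have e3 : g (z + 3 * d) = β := by rw [h.per']; exact h.hB _ (by omega) (by omega)
  rw [h.hA _ h2 h2', e3] at this
  obtain ⟨p, q⟩ := h.h2 z hz (by omega)
  obtain ⟨r, s⟩ := h.h2 (z + d) (by omega) hw
  exact this ⟨hne, p, q, r, s, h.ab⟩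

theorem m1 (h : Conf g n L a k b α β) {z d : ℤ} (hz : 0 ≤ z) (hzL : z < L)
    (h1 : L ≤ z + d) (h1' : z + d < L + a) (h2 : n - b ≤ z + 2 * d) (h2' : z + 2 * d < n)
    (h3 : n ≤ z + 3 * d) (h3' : z + 3 * d < n + L) : g z = g (z + 3 * d - n) := by
  by_contra hne
  have := h.nr z d
  have e2 : g (z + 2 * d) = β := by rw [h.per']; exact h.hB _ (by omega) (by omega)
  rw [h.hA _ h1 h1', e2, h.per' (z + 3 * d)] at this
  obtain ⟨p, q⟩ := h.h2 z hz hzL
  obtain ⟨r, s⟩ := h.h2 (z + 3 * d - n) (by omega) (by omega)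
  exact this ⟨p, q, hne, h.ab, r.symm, s.symm⟩

theorem l1 (h : Conf g n L a k b α β) {z e : ℤ} (hz : L + a ≤ z) (hz' : z < L + a + k)
    (h1 : 0 ≤ z - e) (h1' : z - e < L) (h2 : -b ≤ z - 2 * e) (h2' : z - 2 * e < 0)
    (h3 : L - n ≤ z - 3 * e) (h3' : z - 3 * e < L + a - n) : g z = g (z - e) := by
  by_contra hne
  have := h.nr z (-e)
  have f1 : z + -e = z - e := by ring
  have f2 : z + 2 * -e = z - 2 * e := by ring
  have f3 : z + 3 * -e = z - 3 * e := by ring
  have e3 : g (z - 3 * e) = α := by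
    rw [← h.per]; exact h.hA _ (by omega) (by omega)
  rw [f1, f2, f3, h.hB _ h2 h2', e3] at this
  obtain ⟨p, q⟩ := h.h1 z hz hz'
  obtain ⟨r, s⟩ := h.h2 (z - e) h1 h1'
  exact this ⟨hne, q, p, s, r, h.ab.symm⟩

/-- iterate a step upwards from `0` -/
theorem up (f : ℤ → κ) (T : ℤ) (hs : ∀ z, 0 ≤ z → z < T → f z = f (z + 1)) :
    ∀ z, 0 ≤ z → z ≤ T → f z = f 0 := by
  intro z hz
  induction z, hz using Int.leInduction with
  | base => intro _; rfl
  | succ z hz ih =>
    intro hT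
    rw [← hs z hz (by omega)]
    exact ih (by omega)

/-- the long gap, when the short one is very short: constant on the first half -/
theorem halfI (h : Conf g n L a k b α β) (hn : 1000 ≤ n) (ha : 24 * n ≤ 100 * a)
    (ha' : 100 * a ≤ 26 * n) (hb : 24 * n ≤ 100 * b) (hb' : 100 * b ≤ 26 * n) (hk : 0 ≤ k)
    (hk16 : 16 * k ≤ n) : ∀ z, 0 ≤ z → z ≤ L / 2 + 1 → g z = g 0 := by
  have hn' := h.hn
  apply up
  intro z hz hzT
  obtain ⟨d, hd⟩ : ∃ d, d = (7 * n - 8 * k - 8 * z) / 24 := ⟨_, rfl⟩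
  have s1 : g z = g (z + d) := h.q1 hz (by omega) (by omega) (by omega) (by omega) (by omega)
    (by omega)
  have s2 : g (z + 1) = g (z + 1 + (d - 1)) := h.q1 (by omega) (by omega) (by omega) (by omega)
    (by omega) (by omega) (by omega)
  rw [s1, s2]
  congr 1
  ring

theorem gapI (h : Conf g n L a k b α β) (hn : 1000 ≤ n) (ha : 24 * n ≤ 100 * a)
    (ha' : 100 * a ≤ 26 * n) (hb : 24 * n ≤ 100 * b) (hb' : 100 * b ≤ 26 * n) (hk : 0 ≤ k)
    (hk16 : 16 * k ≤ n) : ∀ z, 0 ≤ z → z < L → g z = g 0 := by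
  have hn' := h.hn
  have A := h.halfI hn ha ha' hb hb' hk hk16
  have B := h.reflect.halfI hn hb hb' ha ha' hk hk16
  simp only [sub_zero] at B
  have e : g (L - 1) = g 0 := by
    have h1 := A (L / 2) (by omega) (by omega)
    have h2 := B (L - 1 - L / 2) (by omega) (by omega)
    rw [show L - 1 - (L - 1 - L / 2) = L / 2 by ring] at h2
    rw [← h2, h1]
  intro z hz hzL
  by_cases hc : z ≤ L / 2 + 1
  · exact A z hz hc
  · have h2 := B (L - 1 - z) (by omega) (by omega)
    rw [show L - 1 - (L - 1 - z) = z by ring] at h2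
    rw [h2, e]

/-- the long gap, when the short one is not very short: constant on the upper half -/
theorem halfII (h : Conf g n L a k b α β) (hn : 1000 ≤ n) (ha : 24 * n ≤ 100 * a)
    (ha' : 100 * a ≤ 26 * n) (hb : 24 * n ≤ 100 * b) (hb' : 100 * b ≤ 26 * n) (hkL : k ≤ L)
    (hk16 : n < 16 * k) : ∀ w, L ≤ 2 * w → w < L → g w = g (L - 1) := by
  have hn' := h.hn
  have key : ∀ w, L ≤ 2 * w → w + 1 < L → g w = g (w + 1) := by
    intro w hw hwL
    obtain ⟨u, hu1, hu2, hu3⟩ : ∃ u, (u = 2 * w - L ∨ u = (w - 1) / 2) ∧ u ≤ 2 * w - L ∧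
        2 * u ≤ w - 1 := by
      by_cases hc : 2 * w - L ≤ (w - 1) / 2
      · exact ⟨2 * w - L, Or.inl rfl, le_rfl, by omega⟩
      · exact ⟨(w - 1) / 2, Or.inr rfl, by omega, by omega⟩
    have s1 : g u = g w := h.p2 (by omega) (by omega) (by omega) (by omega) (by omega)
      (by omega)
    have s2 : g u = g (w + 1) := h.p2 (by omega) (by omega) (by omega) (by omega) (by omega)
      (by omega)
    rw [← s1, s2]
  intro w hw hwL
  have := up (fun t => g (L - 1 - t)) (L - 1 - w) (by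
    intro z hz hzT
    have := key (L - 1 - (z + 1)) (by omega) (by omega)
    rw [show L - 1 - (z + 1) + 1 = L - 1 - z by ring] at this
    exact this.symm) (L - 1 - w) (by omega) le_rfl
  simp only [sub_zero] at this
  rw [show L - 1 - (L - 1 - w) = w by ring] at this
  exact this

theorem gapII (h : Conf g n L a k b α β) (hn : 1000 ≤ n) (ha : 24 * n ≤ 100 * a)
    (ha' : 100 * a ≤ 26 * n) (hb : 24 * n ≤ 100 * b) (hb' : 100 * b ≤ 26 * n) (hkL : k ≤ L)
    (hk16 : n < 16 * k) : ∀ z, 0 ≤ z → z < L → g z = g 0 := by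
  have hn' := h.hn
  have A := h.halfII hn ha ha' hb hb' hkL hk16
  have B := h.reflect.halfII hn hb hb' ha ha' hkL hk16
  have e : g 0 = g (L - 1) := by
    have h1 : g 0 = g ((L + 1) / 2) := h.p2 (by omega) (by omega) (by omega) (by omega)
      (by omega) (by omega)
    rw [h1]
    exact A _ (by omega) (by omega)
  intro z hz hzL
  by_cases hc : L ≤ 2 * z
  · rw [A z hc hzL, e]
  · by_cases hc' : 2 * z = L - 1
    · have h1 : g z = g (z + 3 * (7 * n / 20) - n) := h.m1 hz hzL (by omega) (by omega)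
        (by omega) (by omega) (by omega) (by omega)
      rw [h1, A _ (by omega) (by omega), e]
    · have h2 := B (L - 1 - z) (by omega) (by omega)
      rw [show L - 1 - (L - 1 - z) = z by ring, show L - 1 - (L - 1) = 0 by ring] at h2
      exact h2

theorem gap (h : Conf g n L a k b α β) (hn : 1000 ≤ n) (ha : 24 * n ≤ 100 * a)
    (ha' : 100 * a ≤ 26 * n) (hb : 24 * n ≤ 100 * b) (hb' : 100 * b ≤ 26 * n) (hk : 0 ≤ k)
    (hkL : k ≤ L) : ∀ z, 0 ≤ z → z < L → g z = g 0 := by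
  by_cases hc : 16 * k ≤ n
  · exact h.gapI hn ha ha' hb hb' hk hc
  · exact h.gapII hn ha ha' hb hb' hkL (by omega)

/-- linking the lower half of the short gap to the long gap -/
theorem link (h : Conf g n L a k b α β) (hn : 1000 ≤ n) (ha : 24 * n ≤ 100 * a)
    (ha' : 100 * a ≤ 26 * n) (hb : 24 * n ≤ 100 * b) (hb' : 100 * b ≤ 26 * n) (hkL : k ≤ L)
    (j : ℤ) (hj : 0 ≤ j) (hjk : 2 * j < k) :
    ∃ w, 0 ≤ w ∧ w < L ∧ g (L + a + j) = g w := by
  have hn' := h.hn
  obtain ⟨e, he⟩ : ∃ e, e = (19 * n - 8 * k + 20 * j) / 48 := ⟨_, rfl⟩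
  exact ⟨L + a + j - e, by omega, by omega, h.l1 (by omega) (by omega) (by omega) (by omega)
    (by omega) (by omega) (by omega) (by omega)⟩

theorem main (h : Conf g n L a k b α β) (hn : 1000 ≤ n) (ha : 24 * n ≤ 100 * a)
    (ha' : 100 * a ≤ 26 * n) (hb : 24 * n ≤ 100 * b) (hb' : 100 * b ≤ 26 * n) (hk : 0 ≤ k)
    (hkL : k ≤ L) (t : ℤ) (ht : 0 ≤ t) (htn : t < n) (hα : g t ≠ α) (hβ : g t ≠ β) :
    g t = g 0 := by
  have hn' := h.hn
  have G := h.gap hn ha ha' hb hb' hk hkL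
  by_cases c1 : t < L
  · exact G t ht c1
  by_cases c2 : t < L + a
  · exact absurd (h.hA t (by omega) c2) hα
  by_cases c3 : t < L + a + k
  · by_cases c4 : 2 * (t - L - a) < k
    · obtain ⟨w, hw, hwL, e⟩ := h.link hn ha ha' hb hb' hkL (t - L - a) (by omega) c4
      rw [show L + a + (t - L - a) = t by ring] at e
      rw [e, G w hw hwL]
    · obtain ⟨w, hw, hwL, e⟩ := h.reflect.link hn hb hb' ha ha' hkL (k - 1 - (t - L - a))
        (by omega) (by omega)
      rw [show L - 1 - (L + b + (k - 1 - (t - L - a))) = t - n by rw [hn']; ring,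
        ← h.per' t] at e
      rw [e, G _ (by omega) (by omega)]
  · exfalso
    apply hβ
    rw [h.per' t]
    exact h.hB _ (by omega) (by omega)

end Conf

theorem int_cast_mul_unit {n : ℕ} {u : ZMod n} (hu : IsUnit u) {x y : ℤ}
    (h : (x : ZMod n) * u = (y : ZMod n) * u) : (n : ℤ) ∣ x - y := by
  have h1 : ((x : ℤ) : ZMod n) = (y : ℤ) := hu.mul_right_cancel h
  have h2 := (ZMod.intCast_eq_intCast_iff_dvd_sub y x n).mp h1.symm
  exact h2

theorem mkConf {n : ℕ} (c : ZMod n → κ) (s u : ZMod n) (hu : IsUnit u) (L a k b : ℕ)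
    (hn : n = L + a + k + b) {α β : κ} (hαβ : α ≠ β)
    (hA : ∀ x, c x = α ↔ ∃ i < a, x = s + (i : ℕ) * u)
    (hB : ∀ x, c x = β ↔ ∃ i < b, x = s + (a + k + i : ℕ) * u)
    (hnr : ∀ x d, ¬ Rainbow c x d) :
    Conf (fun t : ℤ => c (s + ((t - L : ℤ) : ZMod n) * u)) n L a k b α β := by
  have nA : ∀ t : ℤ, (∀ i : ℕ, i < a → ¬ (n : ℤ) ∣ (t - L) - i) →
      c (s + ((t - L : ℤ) : ZMod n) * u) ≠ α := by
    intro t ht h
    obtain ⟨i, hi, hx⟩ := (hA _).mp h
    refine ht i hi (int_cast_mul_unit hu ?_)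
    have := add_left_cancel hx
    rw [this]
    simp
  have nB : ∀ t : ℤ, (∀ i : ℕ, i < b → ¬ (n : ℤ) ∣ (t - L) - (a + k + i : ℕ)) →
      c (s + ((t - L : ℤ) : ZMod n) * u) ≠ β := by
    intro t ht h
    obtain ⟨i, hi, hx⟩ := (hB _).mp h
    refine ht i hi (int_cast_mul_unit hu ?_)
    have := add_left_cancel hx
    rw [this]
    simp
  have ndv : ∀ y : ℤ, y ≠ 0 → -n < y → y < n → ¬ (n : ℤ) ∣ y := by
    intro y h0 h1 h2 h3
    apply h0
    exact Int.eq_zero_of_abs_lt_dvd h3 (abs_lt.mpr ⟨h1, h2⟩)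
  refine ⟨by rw [hn]; push_cast; ring, ?_, ?_, ?_, ?_, ?_, hαβ, ?_⟩
  · intro t
    congr 2
    congr 1
    push_cast
    simp
  · intro t h1 h2
    refine (hA _).mpr ⟨(t - L).toNat, by omega, ?_⟩
    congr 2
    have : ((t - L).toNat : ℤ) = t - L := Int.toNat_of_nonneg (by omega)
    rw [← this]
    simp
  · intro t h1 h2
    refine (hB _).mpr ⟨(t + b).toNat, by omega, ?_⟩
    congr 2
    have h3 : ((a + k + (t + b).toNat : ℕ) : ℤ) = t - L + n := by
      rw [hn]; push_cast; rw [Int.toNat_of_nonneg (by omega)]; ring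
    have h4 : (((a + k + (t + b).toNat : ℕ) : ℤ) : ZMod n) = ((t - L + n : ℤ) : ZMod n) := by
      rw [h3]
    rw [Int.cast_natCast] at h4
    rw [h4]
    push_cast
    simp
  · intro t h1 h2
    constructor
    · apply nA
      intro i hi
      apply ndv <;> omega
    · apply nB
      intro i hi
      rw [show t - L - (a + k + i : ℕ) = (t - L - (a + k + i : ℕ) + n) - n by ring,
        dvd_sub_self_right]
      apply ndv <;> push_cast <;> omega
  · intro t h1 h2
    constructor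
    · apply nA
      intro i hi
      apply ndv <;> omega
    · apply nB
      intro i hi
      apply ndv <;> push_cast <;> omega
  · intro x d h
    apply hnr (s + ((x - L : ℤ) : ZMod n) * u) ((d : ZMod n) * u)
    have e : ∀ q : ℤ, s + ((x + q * d - L : ℤ) : ZMod n) * u =
        s + ((x - L : ℤ) : ZMod n) * u + (q : ZMod n) * ((d : ZMod n) * u) := by
      intro q; push_cast; ring
    have e1 := e 1
    have e2 := e 2
    have e3 := e 3
    simp only [Int.cast_one, one_mul, Int.cast_ofNat] at e1 e2 e3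
    unfold Rainbow
    rw [← e1, ← e2, ← e3]
    exact h

theorem result (n : ℕ) (hn : 1000 ≤ n) (c : ZMod n → κ) (s u : ZMod n) (hu : IsUnit u)
    (a k b : ℕ) (ha : 24 * n ≤ 100 * a ∧ 100 * a ≤ 26 * n)
    (hb : 24 * n ≤ 100 * b ∧ 100 * b ≤ 26 * n) (hk : a + k + b ≤ n) (α β : κ) (hαβ : α ≠ β)
    (hA : ∀ x, c x = α ↔ ∃ i < a, x = s + (i : ℕ) * u)
    (hB : ∀ x, c x = β ↔ ∃ i < b, x = s + (a + k + i : ℕ) * u)
    (hCD : ∃ x y, c x ≠ α ∧ c x ≠ β ∧ c y ≠ α ∧ c y ≠ β ∧ c x ≠ c y) :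
    ∃ x d : ZMod n, d ≠ 0 ∧ Rainbow c x d := by
  by_contra hcon
  have hnr : ∀ x d, ¬ Rainbow c x d := by
    intro x d h
    refine hcon ⟨x, d, ?_, h⟩
    rintro rfl
    exact h.1 (by rw [add_zero])
  have : NeZero n := ⟨by omega⟩
  -- every residue is on the progression
  have surj : ∀ (s' : ZMod n) (L : ℤ) (x : ZMod n), ∃ t : ℤ, 0 ≤ t ∧ t < n ∧
      x = s' + ((t - L : ℤ) : ZMod n) * u := by
    intro s' L x
    obtain ⟨v, hv⟩ := hu
    set y : ZMod n := (x - s') * (v⁻¹ : (ZMod n)ˣ) + (L : ZMod n) with hy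
    refine ⟨(y.val : ℤ), by positivity, by exact_mod_cast ZMod.val_lt y, ?_⟩
    have h1 : (((y.val : ℤ) - L : ℤ) : ZMod n) = (x - s') * (v⁻¹ : (ZMod n)ˣ) := by
      push_cast
      rw [ZMod.natCast_val, ZMod.cast_id', id, hy]
      ring
    rw [h1, ← hv, mul_assoc, Units.inv_mul, mul_one]
    ring
  obtain ⟨L, hL⟩ : ∃ L, n = L + a + k + b := ⟨n - (a + k + b), by omega⟩
  obtain ⟨x, y, x1, x2, y1, y2, hxy⟩ := hCD
  by_cases hkL : k ≤ L
  · have C := mkConf c s u hu L a k b hL hαβ hA hB hnr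
    obtain ⟨t, t0, tn, rfl⟩ := surj s L x
    obtain ⟨r, r0, rn, rfl⟩ := surj s L y
    apply hxy
    have e1 := C.main (by exact_mod_cast hn) (by exact_mod_cast ha.1) (by exact_mod_cast ha.2)
      (by exact_mod_cast hb.1) (by exact_mod_cast hb.2) (by positivity) (by exact_mod_cast hkL)
      t t0 tn x1 x2
    have e2 := C.main (by exact_mod_cast hn) (by exact_mod_cast ha.1) (by exact_mod_cast ha.2)
      (by exact_mod_cast hb.1) (by exact_mod_cast hb.2) (by positivity) (by exact_mod_cast hkL)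
      r r0 rn y1 y2
    exact e1.trans e2.symm
  · have hn0 : ((L + a + k + b : ℕ) : ZMod n) = 0 := by rw [← hL]; exact ZMod.natCast_self n
    have C := mkConf c (s + (a + k : ℕ) * u) u hu k b L a (by omega) hαβ.symm
      (by
        intro z
        rw [hB]
        constructor
        · rintro ⟨i, hi, rfl⟩; exact ⟨i, hi, by push_cast; ring⟩
        · rintro ⟨i, hi, rfl⟩; exact ⟨i, hi, by push_cast; ring⟩)
      (by
        intro z
        rw [hA]
        constructor
        · rintro ⟨i, hi, rfl⟩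
          refine ⟨i, hi, ?_⟩
          push_cast at hn0 ⊢
          linear_combination (-u) * hn0
        · rintro ⟨i, hi, rfl⟩
          refine ⟨i, hi, ?_⟩
          push_cast at hn0 ⊢
          linear_combination u * hn0) hnr
    obtain ⟨t, t0, tn, rfl⟩ := surj (s + (a + k : ℕ) * u) k x
    obtain ⟨r, r0, rn, rfl⟩ := surj (s + (a + k : ℕ) * u) k y
    apply hxy
    have e1 := C.main (by exact_mod_cast hn) (by exact_mod_cast hb.1) (by exact_mod_cast hb.2)
      (by exact_mod_cast ha.1) (by exact_mod_cast ha.2) (by positivity) (by omega)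
      t t0 tn x2 x1
    have e2 := C.main (by exact_mod_cast hn) (by exact_mod_cast hb.1) (by exact_mod_cast hb.2)
      (by exact_mod_cast ha.1) (by exact_mod_cast ha.2) (by positivity) (by omega)
      r r0 rn y2 y1
    exact e1.trans e2.symm

end Pool.Agent.Results.MP_ae1ffe_co.TwoProgressionClasses
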